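import Pool.Agent.Helper51.PP.GoalsA2b

/-!
# Project PP (MP_fc6b1e_nt), part A2, packet BL2
-/

namespace Pool.Agent.Helper50.PP

open NumberField IsDedekindDomain Finset
open Pool.Agent.Helper51.PP
open Pool.Agent.Helper17.PP (Sys)

open Classical in
theorem mem_blk {p : ℕ} {B B₀ k U Λ C : Type} [Field k] [AddCommGroup U] [Module k U]
    [AddCommGroup Λ] [Module k Λ] [AddCommGroup C] (S : Sys p B B₀ k U Λ C) {j : ℕ} {q : B}
    (h : q ∈ S.blk j) : ({q} : Finset B) ∈ S.mods j := by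
  unfold Sys.blk at h
  unfold Sys.mods
  rw [Finset.mem_filter] at h ⊢
  have h2 : Nat.log 2 (S.N q) = j := h.2
  have h3 : S.N q < 2 ^ (j + 1) := by
    rw [← h2]
    exact Nat.lt_pow_succ_log_self (by norm_num) _
  refine ⟨?_, ?_⟩
  · rw [Finset.mem_powerset, Finset.singleton_subset_iff]
    unfold Sys.upto
    rw [Set.Finite.mem_toFinset]
    show S.N q ≤ ⌊((2 : ℝ) ^ (j + 1))⌋₊
    apply Nat.le_floor
    exact_mod_cast h3.le
  · show Nat.log 2 (∏ q ∈ ({q} : Finset B), S.N q) = j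
    rw [Finset.prod_singleton]
    exact h2

theorem a2_bl2 (h : A2_GEN) : Pool.Agent.Helper51.PP.A2_BL2 := by
  classical
  intro p B B₀ k U Λ C _ _ _ _ _ _ S ψ₁ F _ _ hU K₀ ℓ h1 h2 E _ lab 𝔪₀ nn d W Xd hChs hval
  obtain ⟨K, hK1, hK⟩ := h p B B₀ k U Λ C S F hU K₀ ℓ 1 le_rfl h1 h2 𝔪₀ d
  refine ⟨Fintype.card E * K + K, by omega, ?_⟩
  intro i j s α β Y hi hj hs hY hα hβ
  set β' : Finset B → ℂ := fun D => if hD : ∃ q, q ∈ S.blk j ∧ S.spl q ∧ D = {q} then
    β hD.choose else 0 with hβ'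
  have hβ1 : ∀ q, q ∈ S.blk j → S.spl q → β' {q} = β q := by
    intro q hq1 hq2
    have hD : ∃ q', q' ∈ S.blk j ∧ S.spl q' ∧ ({q} : Finset B) = {q'} := ⟨q, hq1, hq2, rfl⟩
    simp only [hβ']
    rw [dif_pos hD]
    have h3 := hD.choose_spec.2.2
    rw [Finset.singleton_inj] at h3
    rw [← h3]
  have hβ2 : ∀ D, β' D ≠ 0 → ∃ q, q ∈ S.blk j ∧ S.spl q ∧ D = {q} := by
    intro D hD
    by_contra hcon
    apply hD
    simp only [hβ']
    rw [dif_neg hcon]
  have hβ3 : ∀ D, ‖β' D‖ ≤ (1 : ℝ) ^ D.card := by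
    intro D
    rw [one_pow]
    by_cases hD : ∃ q, q ∈ S.blk j ∧ S.spl q ∧ D = {q}
    · simp only [hβ']
      rw [dif_pos hD]
      exact hβ _
    · simp only [hβ']
      rw [dif_neg hD, norm_zero]
      norm_num
  -- the bound for one label
  have hone : ∀ e : E, ‖∑ P ∈ S.blk i with (¬ S.spl P ∧ lab P = e), ∑ q ∈ S.blk j with S.spl q,
      α P * β q * ψ₁ (s * S.kap q P) * (Real.exp (-((S.N q : ℝ) * S.N P / Y)) : ℂ)‖ ≤
      K * 2 ^ (j + i) * ((j : ℝ) + 1) ^ K * (2 : ℝ) ^ (-(min (j : ℝ) i) / K) *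
        Real.exp (-((2 : ℝ) ^ (j + i) / (2 * Y))) := by
    intro e
    have hCe := hChs s e hs
    generalize hUp : {P | ¬ S.spl P ∧ lab P = e} = Up at hCe
    have hUp' : ∀ P, P ∈ Up ↔ ¬ S.spl P ∧ lab P = e := by
      intro P
      rw [← hUp]
      exact Iff.rfl
    have h3 := hK nn Up {q | S.spl q} W (fun q => Xd q s e)
      hCe j i α β' Y hi hY hα hβ3 (by
        intro D hD
        obtain ⟨q, hq1, hq2, rfl⟩ := hβ2 D hD
        refine ⟨?_, ?_⟩
        · rw [Finset.coe_singleton]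
          exact Set.injOn_singleton _ _
        · intro q' hq'
          rw [Finset.mem_singleton] at hq'
          rw [hq']
          exact hq2)
    refine le_trans (le_of_eq ?_) h3
    congr 1
    refine Finset.sum_congr ?_ ?_
    · ext P
      constructor
      · intro hP
        have hP' := Finset.mem_filter.1 hP
        exact Finset.mem_filter.2 ⟨hP'.1, (hUp' P).2 hP'.2⟩
      · intro hP
        have hP' := Finset.mem_filter.1 hP
        exact Finset.mem_filter.2 ⟨hP'.1, (hUp' P).1 hP'.2⟩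
    · intro P hP
      obtain ⟨hP1, hP23⟩ := Finset.mem_filter.1 hP
      obtain ⟨hP2, hP3⟩ := (hUp' P).1 hP23
      have hinj : Function.Injective (fun q : B => ({q} : Finset B)) :=
        fun a b hab => Finset.singleton_injective hab
      have hsub : (((S.blk j).filter fun q => S.spl q).image fun q : B => ({q} : Finset B)) ⊆
          S.mods j := by
        intro D hD
        rw [Finset.mem_image] at hD
        obtain ⟨q, hq, rfl⟩ := hD
        rw [Finset.mem_filter] at hq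
        exact mem_blk S hq.1
      rw [← Finset.sum_subset hsub]
      · rw [Finset.sum_image (fun a _ b _ hab => hinj hab)]
        refine Finset.sum_congr rfl ?_
        intro q hq
        rw [Finset.mem_filter] at hq
        rw [hβ1 q hq.1 hq.2, Finset.prod_singleton]
        have h4 : Xd q s e (W P).asIdeal = ψ₁ (s * S.kap q P) := by
          rw [← hP3]
          exact hval s q P hq.2 hP2
        have h5 : S.nm {q} = S.N q := Finset.prod_singleton _ _
        rw [h4, h5, mul_comm (S.N q : ℝ)]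
      · intro D _ hD
        have h6 : β' D = 0 := by
          by_contra hne
          obtain ⟨q, hq1, hq2, rfl⟩ := hβ2 D hne
          apply hD
          rw [Finset.mem_image]
          exact ⟨q, Finset.mem_filter.2 ⟨hq1, hq2⟩, rfl⟩
        rw [h6]
        ring
  -- the sum over the labels
  have hsplit : (∑ P ∈ S.blk i with ¬ S.spl P, ∑ q ∈ S.blk j with S.spl q,
      α P * β q * ψ₁ (s * S.kap q P) * (Real.exp (-((S.N q : ℝ) * S.N P / Y)) : ℂ)) =
      ∑ e : E, ∑ P ∈ S.blk i with (¬ S.spl P ∧ lab P = e), ∑ q ∈ S.blk j with S.spl q,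
      α P * β q * ψ₁ (s * S.kap q P) * (Real.exp (-((S.N q : ℝ) * S.N P / Y)) : ℂ) := by
    rw [← Finset.sum_fiberwise ((S.blk i).filter fun P => ¬ S.spl P) lab]
    refine Finset.sum_congr rfl fun e _ => ?_
    rw [Finset.filter_filter]
  rw [hsplit]
  refine (norm_sum_le _ _).trans ((Finset.sum_le_sum fun e _ => hone e).trans ?_)
  rw [Finset.sum_const, Finset.card_univ, nsmul_eq_mul]
  set n := Fintype.card E with hn
  have hexp := Real.exp_pos (-((2 : ℝ) ^ (i + j) / (2 * Y)))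
  have hK0 : (0 : ℝ) < K := by exact_mod_cast hK1
  have e1 : (2 : ℝ) ^ (-(min (j : ℝ) i) / K) ≤ (2 : ℝ) ^ (-(min (i : ℝ) j) / ((n * K + K : ℕ) : ℝ)) := by
    rw [min_comm]
    apply Real.rpow_le_rpow_of_exponent_le (by norm_num)
    rw [neg_div, neg_div, neg_le_neg_iff]
    apply div_le_div_of_nonneg_left (by positivity) hK0
    exact_mod_cast (by omega : K ≤ n * K + K)
  have e2 : ((j : ℝ) + 1) ^ K ≤ ((i : ℝ) + j) ^ (n * K + K) := by
    have hi' : (1 : ℝ) ≤ i := by exact_mod_cast hi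
    have hj' : (1 : ℝ) ≤ j := by exact_mod_cast hj
    calc ((j : ℝ) + 1) ^ K ≤ ((i : ℝ) + j) ^ K := pow_le_pow_left₀ (by positivity) (by linarith) _
      _ ≤ ((i : ℝ) + j) ^ (n * K + K) := pow_le_pow_right₀ (by linarith) (by omega)
  have e3 : (n : ℝ) * K ≤ ((n * K + K : ℕ) : ℝ) := by
    push_cast
    linarith
  rw [add_comm j i]
  have g1 : (0 : ℝ) ≤ (n : ℝ) * K := by positivity
  calc (n : ℝ) * (K * 2 ^ (i + j) * ((j : ℝ) + 1) ^ K * (2 : ℝ) ^ (-(min (j : ℝ) i) / K) *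
        Real.exp (-((2 : ℝ) ^ (i + j) / (2 * Y)))) =
      ((n : ℝ) * K) * 2 ^ (i + j) * ((j : ℝ) + 1) ^ K * (2 : ℝ) ^ (-(min (j : ℝ) i) / K) *
        Real.exp (-((2 : ℝ) ^ (i + j) / (2 * Y))) := by ring
    _ ≤ ((n * K + K : ℕ) : ℝ) * 2 ^ (i + j) * ((i : ℝ) + j) ^ (n * K + K) *
        (2 : ℝ) ^ (-(min (i : ℝ) j) / ((n * K + K : ℕ) : ℝ)) *
        Real.exp (-((2 : ℝ) ^ (i + j) / (2 * Y))) := by
          gcongr

end Pool.Agent.Helper50.PP
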