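import Pool.Agent.Helper94.PP.GoalsA1

/-!
# Project PP (MP_fc6b1e_nt), part A1, packet ORT
-/

namespace Pool.Agent.Helper50.PP

open NumberField Module IsDedekindDomain
open Pool.Agent.Helper51.PP (RC)
open Pool.Agent.Helper94.PP (NTP A1_ORT)

section

variable {F : Type} [Field F] [NumberField F] {𝔪 : Ideal (𝓞 F)} {χ : Ideal (𝓞 F) → ℂ}

theorem ne_top (h : RC 𝔪 χ) (hN : NTP 𝔪 χ) : 𝔪 ≠ ⊤ := by
  rintro rfl
  obtain ⟨α, h1, -, h3⟩ := hN
  exact h3 (h.ray α h1 Submodule.mem_top)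

omit [NumberField F] in
theorem span_sup_congr {α β : 𝓞 F} (hab : α - β ∈ 𝔪) :
    Ideal.span {α} ⊔ 𝔪 = Ideal.span {β} ⊔ 𝔪 := by
  have key : ∀ a b : 𝓞 F, a - b ∈ 𝔪 → Ideal.span {a} ⊔ 𝔪 ≤ Ideal.span {b} ⊔ 𝔪 := by
    intro a b hab
    refine sup_le ?_ le_sup_right
    rw [Ideal.span_singleton_le_iff_mem]
    have h1 : a = b + (a - b) := by ring
    rw [h1]
    exact Submodule.add_mem _ ((le_sup_left : Ideal.span {b} ≤ _) (Ideal.mem_span_singleton_self b))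
      ((le_sup_right : 𝔪 ≤ _) hab)
  refine le_antisymm (key _ _ hab) (key _ _ ?_)
  have : β - α = -(α - β) := by ring
  rw [this]
  exact Submodule.neg_mem _ hab

theorem zero_of_not (h : RC 𝔪 χ) {α : 𝓞 F} (ha : Ideal.span {α} ⊔ 𝔪 ≠ ⊤) :
    χ (Ideal.span {α}) = 0 := by
  by_cases h0 : α = 0
  · subst h0
    rw [Ideal.span_singleton_zero]
    exact h.zero
  · refine h.ncop _ ?_ ha
    rw [Ne, Ideal.span_singleton_eq_bot]
    exact h0

omit [NumberField F] in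
theorem exists_inv {𝔫 : Ideal (𝓞 F)} {α : 𝓞 F} (ha : Ideal.span {α} ⊔ 𝔫 = ⊤) :
    ∃ α' : 𝓞 F, α * α' - 1 ∈ 𝔫 := by
  have h1 : (1 : 𝓞 F) ∈ Ideal.span {α} ⊔ 𝔫 := by rw [ha]; exact Submodule.mem_top
  obtain ⟨x, hx, y, hy, hxy⟩ := Submodule.mem_sup.1 h1
  obtain ⟨z, rfl⟩ := Ideal.mem_span_singleton.1 hx
  refine ⟨z, ?_⟩
  have h2 : α * z - 1 = -y := by rw [← hxy]; ring
  rw [h2]
  exact Submodule.neg_mem _ hy

omit [NumberField F] in
theorem ne_zero_of_cop (hm : 𝔪 ≠ ⊤) {α : 𝓞 F} (ha : Ideal.span {α} ⊔ 𝔪 = ⊤) : α ≠ 0 := by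
  rintro rfl
  rw [Ideal.span_singleton_zero, bot_sup_eq] at ha
  exact hm ha

theorem chi_congr (h : RC 𝔪 χ) (hm : 𝔪 ≠ ⊤) {α β : 𝓞 F} (hab : α - β ∈ 𝔪) :
    χ (Ideal.span {α}) = χ (Ideal.span {β}) := by
  have hs := span_sup_congr hab
  by_cases ha : Ideal.span {α} ⊔ 𝔪 = ⊤
  · have hb : Ideal.span {β} ⊔ 𝔪 = ⊤ := by rw [← hs]; exact ha
    obtain ⟨α', hα'⟩ := exists_inv ha
    have ha0 := ne_zero_of_cop hm ha
    have hb0 := ne_zero_of_cop hm hb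
    have ha'0 : α' ≠ 0 := by
      rintro rfl
      apply hm
      rw [mul_zero, zero_sub] at hα'
      rw [Ideal.eq_top_iff_one]
      have := Submodule.neg_mem _ hα'
      rwa [neg_neg] at this
    have e1 := h.ray (α * α') (mul_ne_zero ha0 ha'0) hα'
    have e2 := h.ray (β * α') (mul_ne_zero hb0 ha'0) (by
      have : β * α' - 1 = (α * α' - 1) - α' * (α - β) := by ring
      rw [this]
      exact Submodule.sub_mem _ hα' (Ideal.mul_mem_left _ _ hab))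
    rw [← Ideal.span_singleton_mul_span_singleton, h.mul] at e1 e2
    have hne : χ (Ideal.span {α'}) ≠ 0 := by
      intro h0
      rw [h0, mul_zero] at e1
      exact zero_ne_one e1
    exact mul_right_cancel₀ hne (e1.trans e2.symm)
  · have hb : Ideal.span {β} ⊔ 𝔪 ≠ ⊤ := by rw [← hs]; exact ha
    rw [zero_of_not h ha, zero_of_not h hb]

end

theorem goalORT : A1_ORT := by
  classical
  intro F _ _ 𝔪 χ h hN c hc hcm
  have hm := ne_top h hN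
  have hper : ∀ α β : 𝓞 F, β ∈ c * 𝔪 →
      (if α + β ∈ c then χ (Ideal.span {α + β}) else 0) =
        (if α ∈ c then χ (Ideal.span {α}) else 0) := by
    intro α β hβ
    have hβc : β ∈ c := (Ideal.mul_le_left : c * 𝔪 ≤ c) hβ
    have hβm : β ∈ 𝔪 := (Ideal.mul_le_right : c * 𝔪 ≤ 𝔪) hβ
    have h1 : α + β ∈ c ↔ α ∈ c := Submodule.add_mem_iff_left _ hβc
    have h2 : χ (Ideal.span {α + β}) = χ (Ideal.span {α}) := by
      apply chi_congr h hm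
      rwa [add_sub_cancel_left]
    by_cases h3 : α ∈ c
    · rw [if_pos h3, if_pos (h1.2 h3), h2]
    · rw [if_neg h3, if_neg (fun h4 => h3 (h1.1 h4))]
  refine ⟨hper, ?_⟩
  set η : 𝓞 F → ℂ := fun α => if α ∈ c then χ (Ideal.span {α}) else 0 with hη
  have hne : c * 𝔪 ≠ ⊥ := mul_ne_zero hc h.ne
  have hfin : Finite (𝓞 F ⧸ c * 𝔪) := Ideal.finiteQuotientOfFreeOfNeBot _ hne
  have : Fintype (𝓞 F ⧸ c * 𝔪) := Fintype.ofFinite _
  show ∑ᶠ ρ : 𝓞 F ⧸ c * 𝔪, η (Function.surjInv Ideal.Quotient.mk_surjective ρ) = 0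
  obtain ⟨α₀, ha0, ha1, ha2⟩ := hN
  -- the Chinese remainder theorem
  obtain ⟨α₁, h1, h2⟩ : ∃ α₁ : 𝓞 F, α₁ - α₀ ∈ 𝔪 ∧ α₁ - 1 ∈ c := by
    have h3 : (1 : 𝓞 F) ∈ c ⊔ 𝔪 := by rw [hcm]; exact Submodule.mem_top
    obtain ⟨x, hx, y, hy, hxy⟩ := Submodule.mem_sup.1 h3
    refine ⟨x * α₀ + y, ?_, ?_⟩
    · have : x * α₀ + y - α₀ = y * (1 - α₀) := by
        have : x = 1 - y := by rw [← hxy]; ring
        rw [this]; ring
      rw [this]
      exact Ideal.mul_mem_right _ _ hy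
    · have : x * α₀ + y - 1 = x * (α₀ - 1) := by
        have : y = 1 - x := by rw [← hxy]; ring
        rw [this]; ring
      rw [this]
      exact Ideal.mul_mem_right _ _ hx
  have hχ1 : χ (Ideal.span {α₁}) ≠ 1 := by
    rw [chi_congr h hm h1]
    exact ha2
  have hc1 : Ideal.span {α₁} ⊔ 𝔪 = ⊤ := by rw [span_sup_congr h1]; exact ha1
  have hc2 : Ideal.span {α₁} ⊔ c = ⊤ := by
    rw [span_sup_congr h2, Ideal.span_singleton_one, top_sup_eq]
  have hc3 : Ideal.span {α₁} ⊔ c * 𝔪 = ⊤ := by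
    rw [Ideal.sup_mul_eq_of_coprime_left hc2]
    exact hc1
  obtain ⟨α₂, hα₂⟩ := exists_inv hc3
  have hmul : ∀ α : 𝓞 F, η (α₁ * α) = χ (Ideal.span {α₁}) * η α := by
    intro α
    have h4 : α₁ * α ∈ c ↔ α ∈ c := by
      have h5 : α₁ * α = α + (α₁ - 1) * α := by ring
      rw [h5]
      exact Submodule.add_mem_iff_left _ (Ideal.mul_mem_right _ _ h2)
    simp only [hη]
    by_cases h6 : α ∈ c
    · rw [if_pos h6, if_pos (h4.2 h6), ← Ideal.span_singleton_mul_span_singleton, h.mul]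
    · rw [if_neg h6, if_neg (fun h7 => h6 (h4.1 h7)), mul_zero]
  have hcongr : ∀ α β : 𝓞 F, Ideal.Quotient.mk (c * 𝔪) α = Ideal.Quotient.mk (c * 𝔪) β →
      η α = η β := by
    intro α β hab
    have h4 := hper β (α - β) (Ideal.Quotient.eq.1 hab)
    rw [add_sub_cancel] at h4
    exact h4
  let u : (𝓞 F ⧸ c * 𝔪)ˣ := Units.mkOfMulEqOne (Ideal.Quotient.mk (c * 𝔪) α₁)
    (Ideal.Quotient.mk (c * 𝔪) α₂) (by
      rw [← map_mul, ← map_one (Ideal.Quotient.mk (c * 𝔪))]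
      exact Ideal.Quotient.eq.2 hα₂)
  have hT : ∑ᶠ ρ : 𝓞 F ⧸ c * 𝔪, η (Function.surjInv Ideal.Quotient.mk_surjective ρ) =
      χ (Ideal.span {α₁}) *
        ∑ᶠ ρ : 𝓞 F ⧸ c * 𝔪, η (Function.surjInv Ideal.Quotient.mk_surjective ρ) := by
    rw [finsum_eq_sum_of_fintype]
    conv_lhs => rw [← Equiv.sum_comp (Units.mulLeft u)]
    rw [Finset.mul_sum]
    refine Finset.sum_congr rfl fun ρ _ => ?_
    rw [← hmul]
    apply hcongr
    have hs : ∀ τ : 𝓞 F ⧸ c * 𝔪, Ideal.Quotient.mk (c * 𝔪)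
        (Function.surjInv Ideal.Quotient.mk_surjective τ) = τ :=
      fun τ => Function.surjInv_eq Ideal.Quotient.mk_surjective τ
    rw [hs, map_mul, hs]
    rfl
  have h5 : (1 - χ (Ideal.span {α₁})) *
      ∑ᶠ ρ : 𝓞 F ⧸ c * 𝔪, η (Function.surjInv Ideal.Quotient.mk_surjective ρ) = 0 := by
    rw [sub_mul, one_mul, ← hT, sub_self]
  rcases mul_eq_zero.1 h5 with h6 | h6
  · exact absurd (sub_eq_zero.1 h6).symm hχ1
  · exact h6

end Pool.Agent.Helper50.PP
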