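import Pool.Agent.Helper11.PP.GoalsD
import Pool.Agent.Helper40.RD.TRF
import Pool.Agent.Helper12.RP.ROO
import Pool.Agent.Helper48.RL.SPL
import Pool.Agent.Helper90.LE.CYC
import Pool.Agent.Helper2.RL.EF1

/-!
# Project PP (MP_fc6b1e_nt), packet D_SPL
-/

namespace Pool.Agent.Helper50.PP

open NumberField Polynomial Module IsDedekindDomain
open Pool.Agent.Helper51.RP Pool.Agent.Helper11.LE Pool.Agent.Helper11.PP
open Pool.Agent.Helper40.RS (bel gw gw_inj efg bel_smul lies)
open Pool.Agent.Helper40.RD (valW ordW bel_of_above)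

/-- A prime above `p` with trivial decomposition: an automorphism over `K₁` which preserves `P` fixes the
`p`-th root `s` of `b ≡ 1 mod p³`. -/
theorem fix_root (p : ℕ) [Fact p.Prime] (K₁ H : Type) [Field K₁] [NumberField K₁] [Field H]
    [NumberField H] [Algebra K₁ H] (ε : K₁) (hε : IsPrimitiveRoot ε p) (b : 𝓞 K₁)
    (hb : (p : 𝓞 K₁) ^ 3 ∣ b - 1) (s : H) (hs : s ^ p = algebraMap K₁ H (b : K₁))
    (P : HeightOneSpectrum (𝓞 H)) (hP : P.valuation H (p : H) < 1) (g : H ≃ₐ[K₁] H)
    (hg : ∀ y : H, P.valuation H (g y) = P.valuation H y) : g s = s := by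
  have hpp : p.Prime := Fact.out
  have hp0 : 0 < p := hpp.pos
  obtain ⟨c, hc1, -, hc3⟩ := Pool.Agent.Helper12.RP.s_roo p K₁ b hb
  set v := P.valuation H with hv
  have hint : ∀ x : 𝓞 K₁, v (algebraMap K₁ H (x : K₁)) ≤ 1 := by
    intro x
    have h1 : algebraMap K₁ H (x : K₁) = algebraMap (𝓞 H) H (algebraMap (𝓞 K₁) (𝓞 H) x) := rfl
    rw [h1]
    exact P.valuation_le_one _
  have hdvd : ∀ (n : ℕ) (x : 𝓞 K₁), (p : 𝓞 K₁) ^ n ∣ x →
      v (algebraMap K₁ H (x : K₁)) ≤ v (p : H) ^ n := by
    rintro n x ⟨y, rfl⟩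
    have h1 : algebraMap K₁ H (((p : 𝓞 K₁) ^ n * y : 𝓞 K₁) : K₁) =
        (p : H) ^ n * algebraMap K₁ H (y : K₁) := by
      push_cast
      simp
    rw [h1, map_mul, map_pow]
    exact mul_le_of_le_one_right' (hint y)
  have hpv0 : v (p : H) ≠ 0 := by
    rw [Ne, map_eq_zero]
    exact_mod_cast hp0.ne'
  set c0 : K₁ := (c (p + 1) : K₁) with hc0
  set C : H := algebraMap K₁ H c0 with hC
  have hvC : v C = 1 := by
    have h1 : v (C - 1) < 1 := by
      have h2 := hdvd 2 (c (p + 1) - 1) (hc3 (p + 1))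
      have h3 : algebraMap K₁ H ((c (p + 1) - 1 : 𝓞 K₁) : K₁) = C - 1 := by
        rw [hC, hc0]; push_cast; simp
      rw [h3] at h2
      refine h2.trans_lt ?_
      exact pow_lt_one' hP (by norm_num)
    have h4 : v (1 + (C - 1)) = 1 := by
      have := Valuation.map_one_add_of_lt (v := v) h1
      exact this
    rwa [add_sub_cancel] at h4
  have hprimF : IsPrimitiveRoot (algebraMap K₁ H ε) p :=
    hε.map_of_injective (algebraMap K₁ H).injective
  have hprod : s ^ p - C ^ p = ∏ ζ ∈ nthRootsFinset p (1 : H), (s - ζ * C) :=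
    hprimF.pow_sub_pow_eq_prod_sub_mul s C hp0
  have hsmall : v (s ^ p - C ^ p) < v (p : H) ^ p := by
    have h2 := hdvd (p + 1) (c (p + 1) ^ p - b) (hc1 (p + 1))
    have h3 : algebraMap K₁ H ((c (p + 1) ^ p - b : 𝓞 K₁) : K₁) = C ^ p - s ^ p := by
      rw [hs, hC, hc0]; push_cast; simp
    rw [h3, v.map_sub_swap] at h2
    refine h2.trans_lt ?_
    rw [pow_succ]
    exact mul_lt_of_lt_one_right (pow_pos (zero_lt_iff.2 hpv0) _) hP
  have hex : ∃ ζ ∈ nthRootsFinset p (1 : H), v (s - ζ * C) < v (p : H) := by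
    by_contra hcon
    push Not at hcon
    rw [hprod, map_prod] at hsmall
    have h4 := Finset.prod_le_prod' (s := nthRootsFinset p (1 : H))
      (f := fun _ => v (p : H)) (g := fun ζ => v (s - ζ * C)) hcon
    rw [Finset.prod_const, hprimF.card_nthRootsFinset] at h4
    exact absurd hsmall (not_lt.2 h4)
  obtain ⟨ζ, hζ, hζ2⟩ := hex
  have hζN : ζ ^ p = 1 := (mem_nthRootsFinset hp0 (1 : H)).1 hζ
  obtain ⟨j, -, hj⟩ := hprimF.eq_pow_of_pow_eq_one hζN
  have hζfix : g ζ = ζ := by
    rw [← hj, map_pow, g.commutes]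
  have hCfix : g C = C := g.commutes _
  have hs0 : s ≠ 0 := by
    rintro rfl
    have h5 : v ((0 : H) - C ^ p) = 1 := by
      rw [zero_sub, Valuation.map_neg, map_pow, hvC, one_pow]
    rw [zero_pow hp0.ne', h5] at hsmall
    exact absurd (hsmall.trans_le (pow_le_one' hP.le p)) (lt_irrefl _)
  set η := g s / s with hη
  have hηN : η ^ p = 1 := by
    rw [hη, div_pow, ← map_pow, hs, g.commutes]
    exact div_self (by rw [← hs]; exact pow_ne_zero _ hs0)
  have hηs : g s = η * s := by
    rw [hη]; field_simp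
  have hvη : v η = 1 := by
    have h3 : v η ^ p = 1 := by rw [← map_pow, hηN, map_one]
    exact (pow_eq_one_iff.1 h3).resolve_right hp0.ne'
  have hvζ : v ζ = 1 := by
    have h3 : v ζ ^ p = 1 := by rw [← map_pow, hζN, map_one]
    exact (pow_eq_one_iff.1 h3).resolve_right hp0.ne'
  have h4 : v (η * s - ζ * C) < v (p : H) := by
    have h5 := hg (s - ζ * C)
    rw [map_sub, map_mul, hζfix, hCfix, hηs] at h5
    rw [h5]; exact hζ2
  have h6 : v (η * s - η * (ζ * C)) < v (p : H) := by
    rw [← mul_sub, map_mul, hvη, one_mul]; exact hζ2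
  have h7 : v (η - 1) < v (p : H) := by
    have h8 : (η - 1) * (ζ * C) = (η * s - ζ * C) - (η * s - η * (ζ * C)) := by ring
    have h9 : v ((η - 1) * (ζ * C)) = v (η - 1) := by
      rw [map_mul, map_mul, hvζ, hvC, mul_one, mul_one]
    rw [← h9, h8]
    exact (v.map_sub _ _).trans_lt (max_lt h4 h6)
  have h10 := Pool.Agent.Helper48.RL.root_close v p 1 η (by rw [pow_one]; exact hηN) h7
  rw [hηs, h10, one_mul]

theorem core (p : ℕ) [Fact p.Prime] (K N K₁ H : Type) [Field K] [NumberField K] [Field N]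
    [NumberField N] [Field K₁] [NumberField K₁] [Field H] [NumberField H] [Algebra K N]
    [Algebra K K₁] [Algebra K H] [Algebra N H] [Algebra K₁ H] [IsScalarTower K N H]
    [IsScalarTower K K₁ H] [IsGalois K N] [IsGalois K K₁] [IsGalois K H] (hN : finrank K N = p)
    (hcop : (finrank K K₁).Coprime p)
    (hgen : ∀ g : H ≃ₐ[K] H, (∀ x : N, g (algebraMap N H x) = algebraMap N H x) →
      (∀ x : K₁, g (algebraMap K₁ H x) = algebraMap K₁ H x) → g = 1)
    (ε : K₁) (hε : IsPrimitiveRoot ε p) (b : 𝓞 K₁)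
    (hb : (p : 𝓞 K₁) ^ 3 ∣ b - 1) (s : H) (hs : s ^ p = algebraMap K₁ H (b : K₁))
    (hns : ∀ x : K₁, algebraMap K₁ H x ≠ s)
    (P : HeightOneSpectrum (𝓞 H)) (hP : P.valuation H (p : H) < 1) :
    ((bel K P).asIdeal.primesOver (𝓞 N)).ncard = p := by
  have hpp : p.Prime := Fact.out
  have hG1 : IsGalois K₁ H := IsGalois.tower_top_of_isGalois K K₁ H
  have hG2 : IsGalois N H := IsGalois.tower_top_of_isGalois K N H
  -- the two injections
  have hc1 : Nat.card (H ≃ₐ[K₁] H) ∣ p := by
    let r : (H ≃ₐ[K₁] H) →* (H ≃ₐ[K] H) := AlgEquiv.restrictScalarsHom K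
    let f : (H ≃ₐ[K₁] H) →* (N ≃ₐ[K] N) := (AlgEquiv.restrictNormalHom N).comp r
    have hf : Function.Injective f := by
      rw [injective_iff_map_eq_one]
      intro g hg
      have h1 : r g = 1 := by
        apply hgen
        · intro x
          have h2 := AlgEquiv.restrictNormal_commutes (r g) N x
          have h3 : (r g).restrictNormal N = 1 := hg
          rw [h3] at h2
          exact h2.symm
        · intro x
          exact g.commutes x
      ext x
      exact congrArg (fun g : H ≃ₐ[K] H => g x) h1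
    have h1 := Subgroup.card_dvd_of_injective f hf
    rwa [IsGalois.card_aut_eq_finrank K N, hN] at h1
  have hc2 : Nat.card (H ≃ₐ[N] H) ∣ finrank K K₁ := by
    let r : (H ≃ₐ[N] H) →* (H ≃ₐ[K] H) := AlgEquiv.restrictScalarsHom K
    let f : (H ≃ₐ[N] H) →* (K₁ ≃ₐ[K] K₁) := (AlgEquiv.restrictNormalHom K₁).comp r
    have hf : Function.Injective f := by
      rw [injective_iff_map_eq_one]
      intro g hg
      have h1 : r g = 1 := by
        apply hgen
        · intro x
          exact g.commutes x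
        · intro x
          have h2 := AlgEquiv.restrictNormal_commutes (r g) K₁ x
          have h3 : (r g).restrictNormal K₁ = 1 := hg
          rw [h3] at h2
          exact h2.symm
      ext x
      exact congrArg (fun g : H ≃ₐ[K] H => g x) h1
    have h1 := Subgroup.card_dvd_of_injective f hf
    rwa [IsGalois.card_aut_eq_finrank K K₁] at h1
  -- the decomposition group is trivial
  have hfree : FreeP K₁ P := by
    intro g hg
    by_contra hne
    have hfix := fix_root p K₁ H ε hε b hb s hs P hP g hg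
    have hcard : Nat.card (H ≃ₐ[K₁] H) = p := by
      rcases (Nat.dvd_prime hpp).1 hc1 with h | h
      · exfalso
        rw [Nat.card_eq_one_iff_unique] at h
        have := h.1
        exact hne (Subsingleton.elim _ _)
      · exact h
    have hall : ∀ g' : H ≃ₐ[K₁] H, g' s = s := by
      intro g'
      have h1 : g' ∈ Subgroup.zpowers g := mem_zpowers_of_prime_card hcard hne
      obtain ⟨i, rfl⟩ := h1
      have h2 : ∀ n : ℕ, (g ^ n) s = s := by
        intro n
        induction n with
        | zero => rfl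
        | succ n ih => rw [pow_succ, AlgEquiv.mul_apply, hfix, ih]
      obtain ⟨n, hn⟩ : ∃ n : ℕ, g ^ n = g ^ i := by
        have := (isOfFinOrder_of_finite g).mem_powers_iff_mem_zpowers.2 ⟨i, rfl⟩
        obtain ⟨n, hn⟩ := this
        exact ⟨n, hn⟩
      show (g ^ i) s = s
      rw [← hn]
      exact h2 n
    have h3 : s ∈ (⊥ : IntermediateField K₁ H) := by
      rw [IsGalois.mem_bot_iff_fixed]
      exact hall
    rw [IntermediateField.mem_bot] at h3
    obtain ⟨x, hx⟩ := h3
    exact hns x hx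
  have hef := Pool.Agent.Helper2.RL.ef_free (K := K₁) P hfree
  have e1 := efg (K := K₁) P
  rw [hef, mul_one] at e1
  have e2 := efg (K := N) P
  -- towers
  have hbN : bel K (bel N P) = bel K P := by
    apply HeightOneSpectrum.ext
    show (P.asIdeal.under (𝓞 N)).under (𝓞 K) = P.asIdeal.under (𝓞 K)
    rw [Ideal.under_under]
  have hbK₁ : bel K (bel K₁ P) = bel K P := by
    apply HeightOneSpectrum.ext
    show (P.asIdeal.under (𝓞 K₁)).under (𝓞 K) = P.asIdeal.under (𝓞 K)
    rw [Ideal.under_under]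
  have hl1 : (bel N P).asIdeal.LiesOver (bel K P).asIdeal := by
    rw [← hbN]; infer_instance
  have hl2 : (bel K₁ P).asIdeal.LiesOver (bel K P).asIdeal := by
    rw [← hbK₁]; infer_instance
  have t1 := Ideal.ncard_primesOver_mul_ncard_primesOver (p := (bel K P).asIdeal)
    (bel N P).asIdeal (N ≃ₐ[K] N) (𝓞 H) (H ≃ₐ[K] H)
  have t2 := Ideal.ncard_primesOver_mul_ncard_primesOver (p := (bel K P).asIdeal)
    (bel K₁ P).asIdeal (K₁ ≃ₐ[K] K₁) (𝓞 H) (H ≃ₐ[K] H)
  -- degrees
  have d1 : finrank K N * finrank N H = finrank K H := finrank_mul_finrank K N H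
  have d2 : finrank K K₁ * finrank K₁ H = finrank K H := finrank_mul_finrank K K₁ H
  have hpd : p ∣ finrank K₁ H := by
    have h1 : p ∣ finrank K K₁ * finrank K₁ H := by
      rw [d2, ← d1, hN]; exact dvd_mul_right _ _
    exact (Nat.Coprime.dvd_mul_left hcop.symm).1 h1
  have hpX : p ∣ ((bel K P).asIdeal.primesOver (𝓞 N)).ncard *
      ((bel N P).asIdeal.primesOver (𝓞 H)).ncard := by
    rw [t1, ← t2, e1]
    exact hpd.mul_left _
  have hnp : p.Coprime ((bel N P).asIdeal.primesOver (𝓞 H)).ncard := by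
    have h1 : ((bel N P).asIdeal.primesOver (𝓞 H)).ncard ∣ finrank K K₁ := by
      refine (Dvd.intro _ e2).trans ?_
      rw [← IsGalois.card_aut_eq_finrank N H]
      exact hc2
    exact (Nat.Coprime.coprime_dvd_left h1 hcop).symm
  have h1 : p ∣ ((bel K P).asIdeal.primesOver (𝓞 N)).ncard :=
    (Nat.Coprime.dvd_mul_right hnp).1 hpX
  have e3 := efg (K := K) (bel N P)
  rw [hbN, hN] at e3
  have h2 : ((bel K P).asIdeal.primesOver (𝓞 N)).ncard ∣ p := Dvd.intro _ e3
  exact Nat.dvd_antisymm h2 h1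

/-- The primes above `v`, as ideals and as points of the spectrum. -/
theorem ncard_ab (K N : Type) [Field K] [NumberField K] [Field N] [NumberField N] [Algebra K N]
    (v : HeightOneSpectrum (𝓞 K)) :
    {V : HeightOneSpectrum (𝓞 N) | Ab V v}.ncard = (v.asIdeal.primesOver (𝓞 N)).ncard := by
  have h1 : v.asIdeal.primesOver (𝓞 N) =
      HeightOneSpectrum.asIdeal '' {V : HeightOneSpectrum (𝓞 N) | Ab V v} := by
    ext Q
    constructor
    · rintro ⟨hQ1, hQ2⟩
      have hne : Q ≠ ⊥ := Ideal.ne_bot_of_liesOver_of_ne_bot v.ne_bot Q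
      exact ⟨⟨Q, hQ1, hne⟩, hQ2.over.symm, rfl⟩
    · rintro ⟨V, hV, rfl⟩
      exact ⟨V.isPrime, ⟨Eq.symm hV⟩⟩
  rw [h1, Set.ncard_image_of_injective]
  intro V V' h
  exact HeightOneSpectrum.ext h

theorem d_spl : D_SPL := by
  intro p hpF K K₁ _ _ _ _ _ ε hC j hj N hN a ha hG hU
  have hp : p.Prime := hpF.out
  obtain ⟨hdeg, hgalN⟩ := hN
  refine ⟨hdeg, hgalN, ?_⟩
  intro v hv
  have hgalK₁ : IsGalois K K₁ := hC.gal
  have hfd : FiniteDimensional K K₁ := Module.Finite.of_restrictScalars_finite ℚ K K₁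
  have hfdN : FiniteDimensional K N := FiniteDimensional.of_finrank_pos (by rw [hdeg]; exact hp.pos)
  let jA : K₁ →ₐ[K] AlgebraicClosure K := { j with commutes' := hj }
  have hjA : ∀ x, jA x = j x := fun _ => rfl
  set K₁' : IntermediateField K (AlgebraicClosure K) := jA.fieldRange with hK₁'
  let e : K₁ ≃ₐ[K] K₁' := AlgEquiv.ofInjectiveField jA
  have hfd' : FiniteDimensional K K₁' := e.toLinearEquiv.finiteDimensional
  have hnorm' : Normal K K₁' := Normal.of_algEquiv e
  have hnormN : Normal K N := hgalN.to_normal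
  set H : IntermediateField K (AlgebraicClosure K) := N ⊔ K₁' with hH
  have hfdH : FiniteDimensional K H := IntermediateField.finiteDimensional_sup _ _
  have hnormH : Normal K H := IntermediateField.normal_sup K (AlgebraicClosure K) N K₁'
  have hgalH : IsGalois K H := { to_normal := hnormH }
  have hnfN : NumberField N := NumberField.of_module_finite K N
  have hnfH : NumberField H := NumberField.of_module_finite K H
  let _ : Algebra N H := (IntermediateField.inclusion (le_sup_left : N ≤ H)).toRingHom.toAlgebra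
  have hjH : ∀ x : K₁, jA x ∈ H := fun x => (le_sup_right : K₁' ≤ H) ⟨x, rfl⟩
  let f : K₁ →+* H := jA.toRingHom.codRestrict H.toSubfield.toSubring hjH
  let _ : Algebra K₁ H := f.toAlgebra
  have hst1 : IsScalarTower K N H := IsScalarTower.of_algebraMap_eq (fun _ => rfl)
  have hst2 : IsScalarTower K K₁ H := IsScalarTower.of_algebraMap_eq (fun x => by
    apply Subtype.ext
    exact (hj x).symm)
  have hval : ∀ x : K₁, ((algebraMap K₁ H x : H) : AlgebraicClosure K) = j x := fun _ => rfl
  have hvalN : ∀ x : N, ((algebraMap N H x : H) : AlgebraicClosure K) = x := fun _ => rfl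
  obtain ⟨hc1, hc2, -, -⟩ := Pool.Agent.Helper90.LE.l_cyc p K K₁ ε hC
  obtain ⟨b, y, hb, hby⟩ := hU
  obtain ⟨s', hs'⟩ := IsAlgClosed.exists_pow_nat_eq (j (b : K₁)) (n := p) hp.pos
  have hjy : j (y : K₁) ≠ 0 := (map_ne_zero j).2 y.ne_zero
  have hs'' : (s' / j (y : K₁)) ^ p = j (a : K₁) := by
    rw [div_pow, hs', hby, map_mul, map_pow, mul_div_assoc, div_self (pow_ne_zero _ hjy), mul_one]
  have hsH : s' ∈ H := by
    rw [← InfiniteGalois.fixedField_fixingSubgroup H]
    rw [IntermediateField.mem_fixedField_iff]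
    intro g hg
    rw [IntermediateField.mem_fixingSubgroup_iff] at hg
    have g1 : ∀ y ∈ N, g y = y := fun y hy => hg y ((le_sup_left : N ≤ H) hy)
    have g2 : ∀ x : K₁, g (j x) = j x := fun x => hg _ (hjH x)
    have h1 := hG _ hs'' g g1 g2
    rw [map_div₀, g2, div_left_inj' hjy] at h1
    exact h1
  set s : H := ⟨s', hsH⟩ with hs
  have hsp : s ^ p = algebraMap K₁ H (b : K₁) := by
    apply Subtype.ext
    exact hs'
  have hns : ∀ x : K₁, algebraMap K₁ H x ≠ s := by
    intro x hx
    apply ha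
    have h1 : x ^ p = (b : K₁) := by
      apply (algebraMap K₁ H).injective
      rw [map_pow, hx, hsp]
    have hx0 : x ≠ 0 := by
      rintro rfl
      rw [zero_pow hp.ne_zero, hby] at h1
      exact mul_ne_zero a.ne_zero (pow_ne_zero _ y.ne_zero) h1.symm
    refine ⟨Units.mk0 x hx0 / y, ?_⟩
    apply Units.ext
    push_cast
    rw [div_pow, Units.val_mk0, h1, hby, mul_div_assoc, div_self (pow_ne_zero _ y.ne_zero), mul_one]
  have hgen : ∀ g : H ≃ₐ[K] H, (∀ x : N, g (algebraMap N H x) = algebraMap N H x) →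
      (∀ x : K₁, g (algebraMap K₁ H x) = algebraMap K₁ H x) → g = 1 := by
    intro g g1 g2
    have h1 : H ≤ IntermediateField.lift (IntermediateField.fixedField (Subgroup.zpowers g)) := by
      have hfix : ∀ x : H, g x = x → (x : AlgebraicClosure K) ∈
          IntermediateField.lift (IntermediateField.fixedField (Subgroup.zpowers g)) := by
        intro x hx
        rw [IntermediateField.mem_lift, IntermediateField.mem_fixedField_iff]
        intro h hh
        have h3 : h ∈ MulAction.stabilizer (H ≃ₐ[K] H) x := by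
          refine (Subgroup.zpowers_le.2 ?_) hh
          exact hx
        exact h3
      refine sup_le ?_ ?_
      · intro x hx
        exact hfix (algebraMap N H ⟨x, hx⟩) (g1 _)
      · rintro _ ⟨x, rfl⟩
        exact hfix (algebraMap K₁ H x) (g2 _)
    ext x
    have h2 := h1 x.2
    rw [IntermediateField.mem_lift, IntermediateField.mem_fixedField_iff] at h2
    exact congrArg Subtype.val (h2 g (Subgroup.mem_zpowers g))
  -- a prime above
  obtain ⟨Q, hQ1, hQ2⟩ := (inferInstance : Nonempty (v.asIdeal.primesOver (𝓞 H)))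
  have hne : Q ≠ ⊥ := Ideal.ne_bot_of_liesOver_of_ne_bot v.ne_bot Q
  let P : HeightOneSpectrum (𝓞 H) := ⟨Q, hQ1, hne⟩
  have hbP : bel K P = v := HeightOneSpectrum.ext hQ2.over.symm
  have hP : P.valuation H (p : H) < 1 := by
    have h1 : (p : H) = algebraMap (𝓞 H) H (p : 𝓞 H) := by simp
    rw [h1, HeightOneSpectrum.valuation_lt_one_iff_mem]
    have h2 : (p : 𝓞 K) ∈ Q.comap (algebraMap (𝓞 K) (𝓞 H)) := by
      have h3 : v.asIdeal = Q.comap (algebraMap (𝓞 K) (𝓞 H)) := hQ2.over
      rw [← h3]; exact hv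
    rw [Ideal.mem_comap] at h2
    simpa using h2
  show {V : HeightOneSpectrum (𝓞 N) | Ab V v}.ncard = p
  rw [ncard_ab, ← hbP]
  exact core p K N K₁ H hdeg hc2 hgen ε hC.prim b hb s hsp hns P hP

end Pool.Agent.Helper50.PP
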