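import Pool.Agent.Helper88.PP.Goals

set_option autoImplicit false

open Finset Filter Topology

open scoped Classical

namespace Pool.Agent.Helper50.PP

open Pool.Agent.Helper88.PP

/-- pairs of small subsets -/
lemma sq_subsets {α : Type*} (Y : Finset α) (k : ℕ) :
    ((Y.powerset.filter (fun B => B.card ≤ k)).card) ^ 2 ≤
      16 ^ k * (Y.powerset.filter (fun B => B.card ≤ 2 * k)).card := by
  have h1 := Finset.card_le_mul_card_image (f := fun p : Finset α × Finset α => p.1 ∪ p.2)
    ((Y.powerset.filter (fun B => B.card ≤ k)) ×ˢ (Y.powerset.filter (fun B => B.card ≤ k)))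
    (16 ^ k) ?_
  · rw [card_product, ← sq] at h1
    refine h1.trans (Nat.mul_le_mul_left _ (card_le_card ?_))
    intro U hU
    rw [mem_image] at hU
    obtain ⟨⟨B1, B2⟩, hB, rfl⟩ := hU
    simp only [mem_product, mem_filter, mem_powerset] at hB ⊢
    refine ⟨union_subset hB.1.1 hB.2.1, (card_union_le _ _).trans ?_⟩
    have := hB.1.2; have := hB.2.2
    omega
  · intro U hU
    rw [mem_image] at hU
    obtain ⟨⟨B1, B2⟩, hB, hU2⟩ := hU
    simp only [mem_product, mem_filter, mem_powerset] at hB hU2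
    have hUc : U.card ≤ 2 * k := by
      rw [← hU2]
      refine (card_union_le _ _).trans ?_
      have := hB.1.2; have := hB.2.2
      omega
    calc _ ≤ (U.powerset ×ˢ U.powerset).card := by
          apply card_le_card
          rintro ⟨C1, C2⟩ hC
          simp only [mem_product, mem_filter, mem_powerset] at hC ⊢
          exact ⟨hC.2 ▸ subset_union_left, hC.2 ▸ subset_union_right⟩
      _ = 4 ^ U.card := by
          rw [card_product, card_powerset, ← mul_pow]; norm_num
      _ ≤ 4 ^ (2 * k) := Nat.pow_le_pow_right (by norm_num) hUc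
      _ = 16 ^ k := by rw [pow_mul]; norm_num

lemma uu_abs_le (s m : ℕ) (hs : Squarefree s) : |uu s m| ≤ (Nat.gcd s m : ℝ) := by
  have hs0 : s ≠ 0 := hs.ne_zero
  have hg : Squarefree (Nat.gcd s m) := hs.squarefree_of_dvd (Nat.gcd_dvd_left _ _)
  have h1 : (Nat.gcd s m) = ∏ p ∈ s.primeFactors.filter (fun p => p ∣ m), p := by
    conv_lhs => rw [← Nat.prod_primeFactors_of_squarefree hg]
    refine prod_congr ?_ (fun _ _ => rfl)
    ext p
    simp only [Nat.mem_primeFactors, mem_filter, ne_eq]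
    constructor
    · rintro ⟨h1, h2, h3⟩
      exact ⟨⟨h1, h2.trans (Nat.gcd_dvd_left _ _), hs0⟩, h2.trans (Nat.gcd_dvd_right _ _)⟩
    · rintro ⟨⟨h1, h2, h3⟩, h4⟩
      exact ⟨h1, Nat.dvd_gcd h2 h4, hg.ne_zero⟩
  rw [h1]
  unfold uu
  rw [abs_prod, Nat.cast_prod, prod_filter]
  refine prod_le_prod (fun _ _ => abs_nonneg _) (fun p hp => ?_)
  have hp2 : (1 : ℝ) ≤ p := by
    exact_mod_cast (Nat.prime_of_mem_primeFactors hp).one_lt.le
  split_ifs with h
  · rw [abs_le]; constructor <;> linarith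
  · simp

lemma ds_card (z m E X : ℕ) (hz : 2 ≤ z) (hm : 0 < m) (hmz : m < z ^ (E + 1)) :
    ((SS z X).filter (fun d => d ∣ m)).card ≤ 2 ^ E := by
  set T := m.primeFactors.filter (fun p => z < p) with hT
  have hTE : T.card ≤ E := by
    have h1 : z ^ T.card ≤ m := by
      calc z ^ T.card = ∏ _p ∈ T, z := by rw [prod_const]
        _ ≤ ∏ p ∈ T, p := prod_le_prod' (fun p hp => by
            rw [hT, mem_filter] at hp; exact hp.2.le)
        _ ≤ ∏ p ∈ m.primeFactors, p := by
            apply Nat.le_of_dvd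
            · exact prod_pos (fun p hp => (Nat.prime_of_mem_primeFactors hp).pos)
            · exact prod_dvd_prod_of_subset _ _ _ (filter_subset _ _)
        _ ≤ m := Nat.le_of_dvd hm (Nat.prod_primeFactors_dvd m)
    have h2 : z ^ T.card < z ^ (E + 1) := lt_of_le_of_lt h1 hmz
    have := (Nat.pow_lt_pow_iff_right (by omega : 1 < z)).mp h2
    omega
  calc ((SS z X).filter (fun d => d ∣ m)).card ≤ T.powerset.card := by
        apply card_le_card_of_injOn (fun d => d.primeFactors)
        · intro d hd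
          simp only [coe_filter, Set.mem_ofPred_eq, SS, mem_filter] at hd
          simp only [coe_powerset, Set.mem_preimage, Set.mem_powerset_iff, coe_subset]
          intro p hp
          rw [hT, mem_filter]
          have hp1 := Nat.prime_of_mem_primeFactors hp
          have hp2 := Nat.dvd_of_mem_primeFactors hp
          exact ⟨Nat.mem_primeFactors.mpr ⟨hp1, hp2.trans hd.2, hm.ne'⟩, hd.1.2.2 p hp1 hp2⟩
        · intro d hd e he hde
          simp only [coe_filter, Set.mem_ofPred_eq, SS, mem_filter] at hd he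
          have h1 := Nat.prod_primeFactors_of_squarefree hd.1.2.1
          have h2 := Nat.prod_primeFactors_of_squarefree he.1.2.1
          have hde' : d.primeFactors = e.primeFactors := hde
          rw [← h1, ← h2, hde']
    _ = 2 ^ T.card := card_powerset _
    _ ≤ 2 ^ E := Nat.pow_le_pow_right (by norm_num) hTE

lemma aa_nonneg (q E z r : ℕ) : 0 ≤ aa q E z r := by
  unfold aa
  have : 0 ≤ VV z (m1 q E) (m2 q E) := by
    unfold VV
    exact sum_nonneg (fun _ _ => by positivity)
  positivity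

lemma m2_le (q E : ℕ) : m2 q E ≤ MM E := by
  unfold m2 m1 MM
  rcases Nat.eq_zero_or_pos q with h | h
  · simp [h]
  · calc q * (E / 16 / (2 * q)) ≤ (2 * q) * (E / 16 / (2 * q)) :=
          Nat.mul_le_mul_right _ (by omega)
      _ ≤ E / 16 := Nat.mul_div_le _ _

lemma g_bound (q E z m : ℕ) (C : ℝ) (hC : 0 ≤ C) (hz : 2 ≤ z) (hm : 0 < m)
    (hmz : m < z ^ (E + 1))
    (hCO : ∀ d ∈ SS z (z ^ MM E), (d : ℝ) *
      ∑ r ∈ (LA z (m1 q E) (m2 q E)).filter (fun r => d ∣ r), aa q E z r ≤ C) :
    ∑ s ∈ LA z (m1 q E) (m2 q E), aa q E z s * |uu s m| ≤ C * 2 ^ E := by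
  have hLA : ∀ s ∈ LA z (m1 q E) (m2 q E), Sf z s ∧ 1 ≤ s ∧ s < z ^ MM E := by
    intro s hs
    simp only [LA, SS, mem_filter, mem_Ico] at hs
    exact ⟨hs.1.2, hs.1.1.1, lt_of_lt_of_le hs.1.1.2
      (Nat.pow_le_pow_right (by omega) (m2_le q E))⟩
  set DS := (SS z (z ^ MM E)).filter (fun d => d ∣ m) with hDS
  have hmaps : ∀ s ∈ LA z (m1 q E) (m2 q E), Nat.gcd s m ∈ DS := by
    intro s hs
    obtain ⟨h1, h2, h3⟩ := hLA s hs
    simp only [hDS, SS, mem_filter, mem_Ico]
    refine ⟨⟨⟨Nat.gcd_pos_of_pos_right _ hm, ?_⟩, ?_, ?_⟩, Nat.gcd_dvd_right _ _⟩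
    · exact lt_of_le_of_lt (Nat.gcd_le_left _ (by omega)) h3
    · exact h1.1.squarefree_of_dvd (Nat.gcd_dvd_left _ _)
    · intro p hp hpd
      exact h1.2 p hp (hpd.trans (Nat.gcd_dvd_left _ _))
  calc ∑ s ∈ LA z (m1 q E) (m2 q E), aa q E z s * |uu s m|
      ≤ ∑ s ∈ LA z (m1 q E) (m2 q E), aa q E z s * (Nat.gcd s m : ℝ) := by
        refine sum_le_sum (fun s hs => ?_)
        exact mul_le_mul_of_nonneg_left (uu_abs_le s m (hLA s hs).1.1) (aa_nonneg _ _ _ _)
    _ = ∑ d ∈ DS, ∑ s ∈ (LA z (m1 q E) (m2 q E)).filter (fun s => Nat.gcd s m = d),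
          aa q E z s * (Nat.gcd s m : ℝ) := (sum_fiberwise_of_maps_to hmaps _).symm
    _ ≤ ∑ d ∈ DS, C := by
        refine sum_le_sum (fun d hd => ?_)
        have hd' : d ∈ SS z (z ^ MM E) := (mem_filter.mp hd).1
        refine le_trans ?_ (hCO d hd')
        rw [mul_sum]
        calc ∑ s ∈ (LA z (m1 q E) (m2 q E)).filter (fun s => Nat.gcd s m = d),
              aa q E z s * (Nat.gcd s m : ℝ)
            = ∑ s ∈ (LA z (m1 q E) (m2 q E)).filter (fun s => Nat.gcd s m = d),
              (d : ℝ) * aa q E z s := by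
              refine sum_congr rfl (fun s hs => ?_)
              rw [(mem_filter.mp hs).2, mul_comm]
          _ ≤ ∑ s ∈ (LA z (m1 q E) (m2 q E)).filter (fun s => d ∣ s), (d : ℝ) * aa q E z s := by
              apply sum_le_sum_of_subset_of_nonneg
              · intro s hs
                rw [mem_filter] at hs ⊢
                exact ⟨hs.1, hs.2 ▸ Nat.gcd_dvd_left _ _⟩
              · intro s _ _
                exact mul_nonneg (by positivity) (aa_nonneg _ _ _ _)
    _ = DS.card * C := by rw [sum_const, nsmul_eq_mul]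
    _ ≤ (2 ^ E : ℕ) * C := by
        apply mul_le_mul_of_nonneg_right _ hC
        exact_mod_cast ds_card z m E _ hz hm hmz
    _ = C * 2 ^ E := by push_cast; ring

/-- the support of a label function in `TT` is small -/
lemma supp_card (q E z : ℕ) (P : Finset ℕ) (hq : 1 ≤ q) (hz : 2 ≤ z) (r : P → ℕ)
    (hr : r ∈ TT q E z P) : (univ.filter (fun i => r i ≠ 0)).card ≤ 2 * q := by
  simp only [TT, mem_filter, Fintype.mem_piFinset] at hr
  obtain ⟨h1, h2⟩ := hr
  have h3 : (univ.filter (fun i => r i ≠ 0)).card * (m1 q E + 1) ≤ MM E := by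
    refine le_trans ?_ h2
    rw [← smul_eq_mul, ← sum_const]
    calc ∑ _i ∈ univ.filter (fun i => r i ≠ 0), (m1 q E + 1)
        ≤ ∑ i ∈ univ.filter (fun i => r i ≠ 0), (if r i = 0 then 0 else ee z (r i)) := by
          refine sum_le_sum (fun i hi => ?_)
          have hi' := (mem_filter.mp hi).2
          rw [if_neg hi']
          have h4 := h1 i
          rw [mem_insert] at h4
          rcases h4 with h4 | h4
          · exact absurd h4 hi'
          · simp only [LA, mem_filter] at h4
            unfold ee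
            have := Nat.le_log_of_pow_le (by omega : 1 < z) h4.2
            omega
      _ ≤ ∑ i, (if r i = 0 then 0 else ee z (r i)) :=
          sum_le_sum_of_subset (filter_subset _ _)
  have h4 : MM E < 2 * q * (m1 q E + 1) := by
    unfold m1 MM
    exact Nat.lt_mul_div_succ _ (by omega)
  have h5 : (univ.filter (fun i => r i ≠ 0)).card * (m1 q E + 1) < 2 * q * (m1 q E + 1) :=
    lt_of_le_of_lt h3 h4
  exact (Nat.lt_of_mul_lt_mul_right h5).le

lemma ww_bound (q E z y n : ℕ) (P : Finset ℕ) (G : ℝ) (hG : 0 ≤ G) (hq : 1 ≤ q) (hz : 2 ≤ z)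
    (hg : ∀ i : P, ∑ s ∈ LA z (m1 q E) (m2 q E), aa q E z s * |uu s (n + (i : ℕ))| ≤ G) :
    |WW q E z y P n| ≤ (1 + G) ^ (2 * q) *
      (((univ.filter (fun i : P => Rg y z (n + (i : ℕ)))).powerset.filter
        (fun B => B.card ≤ 2 * q)).card : ℝ) := by
  set LL' := LA z (m1 q E) (m2 q E) with hLL
  have h0 : (0 : ℕ) ∉ LL' := by
    simp [hLL, LA, SS]
  set w : P → ℕ → ℝ := fun i s =>
    |(if s = 0 then 1 else - aa q E z s) * vv y z s (n + (i : ℕ))| with hw
  have hw0 : ∀ i s, 0 ≤ w i s := fun i s => abs_nonneg _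
  have hwz : ∀ i, w i 0 = 1 := by
    intro i; simp [hw, vv]
  have hws : ∀ i : P, ∑ s ∈ LL', w i s ≤ if Rg y z (n + (i : ℕ)) then G else 0 := by
    intro i
    split_ifs with h
    · refine le_trans (le_of_eq ?_) (hg i)
      refine sum_congr rfl (fun s hs => ?_)
      have hs0 : s ≠ 0 := fun hs0 => h0 (hs0 ▸ hs)
      simp only [hw, vv, if_neg hs0, if_pos h, abs_mul, abs_neg, abs_of_nonneg (aa_nonneg q E z s)]
    · apply le_of_eq
      refine sum_eq_zero (fun s hs => ?_)
      have hs0 : s ≠ 0 := fun hs0 => h0 (hs0 ▸ hs)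
      simp only [hw, vv, if_neg hs0, if_neg h, mul_zero, abs_zero]
  set SB : Finset (Finset P) := univ.filter (fun B => B.card ≤ 2 * q) with hSB
  have hmaps : ∀ r ∈ TT q E z P, univ.filter (fun i => r i ≠ 0) ∈ SB := by
    intro r hr
    rw [hSB, mem_filter]
    exact ⟨mem_univ _, supp_card q E z P hq hz r hr⟩
  have hfib : ∀ B ∈ SB, ∑ r ∈ (TT q E z P).filter (fun r => univ.filter (fun i => r i ≠ 0) = B),
      ∏ i, w i (r i) ≤ ∏ i, (if i ∈ B then (if Rg y z (n + (i : ℕ)) then G else 0) else 1) := by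
    intro B _
    calc ∑ r ∈ (TT q E z P).filter (fun r => univ.filter (fun i => r i ≠ 0) = B),
          ∏ i, w i (r i)
        ≤ ∑ r ∈ Fintype.piFinset (fun i : P => if i ∈ B then LL' else {0}), ∏ i, w i (r i) := by
          apply sum_le_sum_of_subset_of_nonneg
          · intro r hr
            simp only [mem_filter, TT, Fintype.mem_piFinset] at hr
            rw [Fintype.mem_piFinset]
            intro i
            by_cases hi : i ∈ B
            · rw [if_pos hi]
              have h1 : r i ≠ 0 := by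
                rw [← hr.2] at hi
                exact (mem_filter.mp hi).2
              exact (mem_insert.mp (hr.1.1 i)).resolve_left h1
            · rw [if_neg hi, mem_singleton]
              by_contra h1
              exact hi (by rw [← hr.2]; exact mem_filter.mpr ⟨mem_univ _, h1⟩)
          · intro r _ _
            exact prod_nonneg (fun i _ => hw0 i _)
      _ = ∏ i, ∑ s ∈ (if i ∈ B then LL' else {0}), w i s := (prod_univ_sum _ _).symm
      _ ≤ ∏ i, (if i ∈ B then (if Rg y z (n + (i : ℕ)) then G else 0) else 1) := by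
          refine prod_le_prod (fun i _ => sum_nonneg (fun s _ => hw0 i s)) (fun i _ => ?_)
          by_cases hi : i ∈ B
          · simp only [if_pos hi]; exact hws i
          · simp only [if_neg hi, sum_singleton]
            exact (hwz i).le
  have hB : ∀ B ∈ SB, ∏ i, (if i ∈ B then (if Rg y z (n + (i : ℕ)) then G else 0) else 1) ≤
      if B ⊆ univ.filter (fun i : P => Rg y z (n + (i : ℕ))) then (1 + G) ^ (2 * q) else 0 := by
    intro B hB
    split_ifs with h
    · have h1 : ∏ i, (if i ∈ B then (if Rg y z (n + (i : ℕ)) then G else 0) else 1) =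
          ∏ i ∈ B, G := by
        rw [← prod_filter]
        refine (prod_congr (by ext i; simp) (fun i hi => ?_))
        have hi' : i ∈ B := by simpa using hi
        have := (mem_filter.mp (h hi')).2
        rw [if_pos this]
      rw [h1, prod_const]
      calc G ^ B.card ≤ (1 + G) ^ B.card := pow_le_pow_left₀ hG (by linarith) _
        _ ≤ (1 + G) ^ (2 * q) := pow_le_pow_right₀ (by linarith) (mem_filter.mp hB).2
    · apply le_of_eq
      rw [not_subset] at h
      obtain ⟨i, hi, hi2⟩ := h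
      apply prod_eq_zero (mem_univ i)
      rw [if_pos hi, if_neg]
      intro h3
      exact hi2 (mem_filter.mpr ⟨mem_univ _, h3⟩)
  calc |WW q E z y P n| ≤ ∑ r ∈ TT q E z P, ∏ i, w i (r i) := by
        unfold WW
        refine (abs_sum_le_sum_abs _ _).trans (le_of_eq ?_)
        refine sum_congr rfl (fun r _ => ?_)
        rw [abs_prod]
    _ = ∑ B ∈ SB, ∑ r ∈ (TT q E z P).filter (fun r => univ.filter (fun i => r i ≠ 0) = B),
          ∏ i, w i (r i) := (sum_fiberwise_of_maps_to hmaps _).symm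
    _ ≤ ∑ B ∈ SB, if B ⊆ univ.filter (fun i : P => Rg y z (n + (i : ℕ)))
          then (1 + G) ^ (2 * q) else 0 :=
        sum_le_sum (fun B hB' => (hfib B hB').trans (hB B hB'))
    _ = (1 + G) ^ (2 * q) * (((univ.filter (fun i : P => Rg y z (n + (i : ℕ)))).powerset.filter
        (fun B => B.card ≤ 2 * q)).card : ℝ) := by
        rw [← sum_filter, sum_const, nsmul_eq_mul, mul_comm]
        congr 3
        ext B
        simp only [hSB, mem_filter, mem_univ, true_and, mem_powerset]
        exact and_comm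

lemma om_nonneg (y z : ℕ) : 0 ≤ om y z := by
  unfold om
  refine prod_nonneg (fun p hp => ?_)
  have hp1 : 1 < p := ((mem_filter.mp hp).2).one_lt
  have : (1 : ℝ) / p ≤ 1 := by
    rw [div_le_one (by positivity)]
    exact_mod_cast hp1.le
  linarith

/-- sum over small subsets of a power -/
lemma sum_small {α : Type} [Fintype α] (K : ℕ) (o B : ℝ) (ho : 0 ≤ o)
    (hB : (Fintype.card α : ℝ) * o ≤ B) :
    ∑ U ∈ (univ : Finset (Finset α)).filter (fun U => U.card ≤ K), o ^ U.card ≤
      (K + 1) * (1 + B) ^ K := by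
  have hB0 : 0 ≤ B := le_trans (by positivity) hB
  have hmaps : ∀ U ∈ (univ : Finset (Finset α)).filter (fun U => U.card ≤ K),
      U.card ∈ range (K + 1) := by
    intro U hU
    rw [mem_range]
    have := (mem_filter.mp hU).2
    omega
  rw [← sum_fiberwise_of_maps_to hmaps]
  calc _ ≤ ∑ k ∈ range (K + 1), (1 + B) ^ K := by
        refine sum_le_sum (fun k hk => ?_)
        have hk' : k ≤ K := by rw [mem_range] at hk; omega
        calc _ ≤ ∑ U ∈ powersetCard k (univ : Finset α), o ^ k := by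
              rw [show (∑ U ∈ ((univ : Finset (Finset α)).filter (fun U => U.card ≤ K)).filter
                (fun U => U.card = k), o ^ U.card) =
                ∑ U ∈ ((univ : Finset (Finset α)).filter (fun U => U.card ≤ K)).filter
                (fun U => U.card = k), o ^ k from sum_congr rfl (fun U hU => by
                  rw [(mem_filter.mp hU).2])]
              apply sum_le_sum_of_subset_of_nonneg
              · intro U hU
                rw [mem_powersetCard]
                exact ⟨subset_univ _, (mem_filter.mp hU).2⟩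
              · intros; positivity
          _ = ((Fintype.card α).choose k : ℝ) * o ^ k := by
              rw [sum_const, card_powersetCard, nsmul_eq_mul, card_univ]
          _ ≤ (Fintype.card α : ℝ) ^ k * o ^ k := by
              apply mul_le_mul_of_nonneg_right _ (by positivity)
              exact_mod_cast Nat.choose_le_pow _ _
          _ = ((Fintype.card α : ℝ) * o) ^ k := by rw [mul_pow]
          _ ≤ (1 + B) ^ k := pow_le_pow_left₀ (by positivity) (by linarith) _
          _ ≤ (1 + B) ^ K := pow_le_pow_right₀ (by linarith) hk'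
    _ = (K + 1) * (1 + B) ^ K := by
        rw [sum_const, card_range, nsmul_eq_mul]
        push_cast
        ring

theorem s4 (h1 : StmtTL) (h2 : StmtCO) : StmtS4 := by
  intro q hq A hA
  obtain ⟨c, hc, hTL⟩ := h1
  obtain ⟨E1, hE1⟩ := hTL (2 * (2 * (2 * q)))
  obtain ⟨C, hC1, E2, hE2⟩ := h2 q hq
  refine ⟨max E1 E2, fun E hE => ?_⟩
  obtain ⟨z1, hz1⟩ := hE1 E (le_trans (le_max_left _ _) hE)
  obtain ⟨z2, hz2⟩ := hE2 E (le_trans (le_max_right _ _) hE)
  set G : ℝ := C * 2 ^ E with hGdef
  have hG : 0 ≤ G := by positivity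
  refine ⟨((1 + G) ^ (2 * q)) ^ 4 * ((16 : ℝ) ^ (2 * q)) ^ 2 * 16 ^ (2 * (2 * q)) *
    (2 * (((2 * (2 * (2 * q)) : ℕ) : ℝ) + 1) * (1 + A * E) ^ (2 * (2 * (2 * q)))),
    max (max z1 z2) (max 2 (5 * 2 ^ E)), fun z hz x y hSc b hb P hP hPA => ?_⟩
  have hzz1 : z1 ≤ z := le_trans (le_trans (le_max_left _ _) (le_max_left _ _)) hz
  have hzz2 : z2 ≤ z := le_trans (le_trans (le_max_right _ _) (le_max_left _ _)) hz
  have hz2' : 2 ≤ z := le_trans (le_trans (le_max_left _ _) (le_max_right _ _)) hz
  have hz5 : 5 * 2 ^ E ≤ z := le_trans (le_trans (le_max_right _ _) (le_max_right _ _)) hz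
  have hq1 : 1 ≤ q := hq.1
  have hTL' := hz1 z hzz1 x y hSc b hb
  have hCO' := hz2 z hzz2
  have hXX : 0 ≤ XX x := by unfold XX; positivity
  -- size of the points
  have hsize : ∀ n ∈ NN x b, ∀ i : P, 0 < n + (i : ℕ) ∧ n + (i : ℕ) < z ^ (E + 1) := by
    intro n hn i
    have hi := hP i.2
    rw [mem_Icc] at hi
    simp only [NN, mem_filter, mem_Ioc] at hn
    refine ⟨by omega, ?_⟩
    obtain ⟨_, hx2, _, hy2⟩ := hSc
    have hx1 : 1 ≤ x := by omega
    have hx1' : (1 : ℝ) ≤ x := by exact_mod_cast hx1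
    -- y ≤ 4 x
    have hy4 : (y : ℝ) ≤ 4 * x := by
      have hs : 0 < Real.sqrt x := Real.sqrt_pos.mpr (by linarith)
      have hl := Real.log_le_sub_one_of_pos hs
      rw [Real.log_sqrt (by linarith)] at hl
      have hl0 : 0 ≤ Real.log x := Real.log_nonneg hx1'
      have hl2 : Real.log x ≤ 2 * Real.sqrt x := by linarith
      have hl3 : Real.log x ^ 2 ≤ (2 * Real.sqrt x) ^ 2 := pow_le_pow_left₀ hl0 hl2 2
      rw [mul_pow, Real.sq_sqrt (by linarith)] at hl3
      linarith
    have hy4' : y ≤ 4 * x := by exact_mod_cast hy4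
    have h5 : n + (i : ℕ) ≤ 5 * x := by omega
    have h6 : (z + 1) ^ E ≤ (2 * z) ^ E := Nat.pow_le_pow_left (by omega) _
    calc n + (i : ℕ) ≤ 5 * x := h5
      _ < 5 * (z + 1) ^ E := by omega
      _ ≤ 5 * (2 * z) ^ E := by omega
      _ = 5 * 2 ^ E * z ^ E := by rw [mul_pow]; ring
      _ ≤ z * z ^ E := Nat.mul_le_mul_right _ hz5
      _ = z ^ (E + 1) := by rw [pow_succ]; ring
  set K : ℕ := 2 * (2 * (2 * q)) with hK
  set Y : ℕ → Finset P := fun n => univ.filter (fun i : P => Rg y z (n + (i : ℕ))) with hY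
  -- pointwise bound
  have hpt : ∀ n ∈ NN x b, WW q E z y P n ^ 4 ≤
      ((1 + G) ^ (2 * q)) ^ 4 * ((16 : ℝ) ^ (2 * q)) ^ 2 * 16 ^ (2 * (2 * q)) *
        (((Y n).powerset.filter (fun B => B.card ≤ K)).card : ℝ) := by
    intro n hn
    have hb1 := ww_bound q E z y n P G hG hq1 hz2' (fun i => g_bound q E z _ C (by linarith) hz2'
      (hsize n hn i).1 (hsize n hn i).2 (fun d hd => (hCO' d hd).1))
    set N1 := ((Y n).powerset.filter (fun B => B.card ≤ 2 * q)).card with hN1
    set N2 := ((Y n).powerset.filter (fun B => B.card ≤ 2 * (2 * q))).card with hN2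
    set N3 := ((Y n).powerset.filter (fun B => B.card ≤ K)).card with hN3
    have hs1 : N1 ^ 2 ≤ 16 ^ (2 * q) * N2 := sq_subsets (Y n) (2 * q)
    have hs2 : N2 ^ 2 ≤ 16 ^ (2 * (2 * q)) * N3 := sq_subsets (Y n) (2 * (2 * q))
    have hs1' : ((N1 : ℝ)) ^ 2 ≤ 16 ^ (2 * q) * N2 := by exact_mod_cast hs1
    have hs2' : ((N2 : ℝ)) ^ 2 ≤ 16 ^ (2 * (2 * q)) * N3 := by exact_mod_cast hs2
    have e1 : WW q E z y P n ^ 4 = |WW q E z y P n| ^ 4 := by
      rw [show (4 : ℕ) = 2 * 2 by norm_num, pow_mul, pow_mul, sq_abs]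
    rw [e1]
    calc |WW q E z y P n| ^ 4 ≤ ((1 + G) ^ (2 * q) * (N1 : ℝ)) ^ 4 :=
          pow_le_pow_left₀ (abs_nonneg _) hb1 4
      _ = ((1 + G) ^ (2 * q)) ^ 4 * ((N1 : ℝ) ^ 2) ^ 2 := by ring
      _ ≤ ((1 + G) ^ (2 * q)) ^ 4 * ((16 : ℝ) ^ (2 * q) * N2) ^ 2 := by
          apply mul_le_mul_of_nonneg_left _ (by positivity)
          exact pow_le_pow_left₀ (by positivity) hs1' 2
      _ = ((1 + G) ^ (2 * q)) ^ 4 * ((16 : ℝ) ^ (2 * q)) ^ 2 * (N2 : ℝ) ^ 2 := by ring
      _ ≤ ((1 + G) ^ (2 * q)) ^ 4 * ((16 : ℝ) ^ (2 * q)) ^ 2 * (16 ^ (2 * (2 * q)) * N3) := by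
          apply mul_le_mul_of_nonneg_left hs2' (by positivity)
      _ = _ := by ring
  -- the count
  have hcount : ∑ n ∈ NN x b, (((Y n).powerset.filter (fun B => B.card ≤ K)).card : ℝ) ≤
      2 * ((K : ℝ) + 1) * (1 + A * E) ^ K * XX x := by
    have e1 : ∀ n, (((Y n).powerset.filter (fun B => B.card ≤ K)).card : ℝ) =
        ∑ U ∈ (univ : Finset (Finset P)).filter (fun U => U.card ≤ K),
          if U ⊆ Y n then (1 : ℝ) else 0 := by
      intro n
      rw [← sum_filter, sum_const, nsmul_eq_mul, mul_one]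
      congr 2
      ext U
      simp only [mem_filter, mem_powerset, mem_univ, true_and]
      exact and_comm
    simp only [e1]
    rw [sum_comm]
    have e2 : ∀ U ∈ (univ : Finset (Finset P)).filter (fun U => U.card ≤ K),
        ∑ n ∈ NN x b, (if U ⊆ Y n then (1 : ℝ) else 0) ≤ 2 * XX x * om y z ^ U.card := by
      intro U hU
      have hUK := (mem_filter.mp hU).2
      set B : Finset ℕ := U.map (Function.Embedding.subtype _) with hBdef
      have hBsub : B ⊆ Icc 1 y := by
        intro i hi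
        rw [hBdef, Finset.mem_map] at hi
        obtain ⟨j, _, rfl⟩ := hi
        exact hP j.2
      have hBcard : B.card = U.card := card_map _
      have h3 := (hTL' B hBsub (by rw [hBcard]; exact hUK) (fun _ => 1)
        (fun i _ => ⟨squarefree_one, fun p hp hp1 =>
          absurd (Nat.dvd_one.mp hp1) hp.one_lt.ne'⟩)
        (by simp only [prod_const_one]; exact Nat.one_le_pow _ _ (by omega))).1
        (fun i _ j _ _ => by simp)
      simp only [Nat.cast_one, div_one, prod_const, hBcard] at h3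
      have h4 := (abs_le.mp h3).2
      have h5 : Real.exp (-(c * E)) ≤ 1 := by
        rw [Real.exp_le_one_iff]
        have : 0 ≤ c * E := by positivity
        linarith
      have h6 : 0 ≤ XX x * om y z ^ U.card :=
        mul_nonneg hXX (pow_nonneg (om_nonneg y z) _)
      have h7 : ∑ n ∈ NN x b, (if U ⊆ Y n then (1 : ℝ) else 0) =
          (((NN x b).filter (fun n => ∀ i ∈ B, 1 ∣ n + i ∧ Rg y z (n + i))).card : ℝ) := by
        rw [← sum_filter, sum_const, nsmul_eq_mul, mul_one]
        congr 2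
        ext n
        simp only [mem_filter]
        refine and_congr_right (fun _ => ?_)
        constructor
        · intro h i hi
          rw [hBdef, Finset.mem_map] at hi
          obtain ⟨j, hj, rfl⟩ := hi
          exact ⟨one_dvd _, (mem_filter.mp (h hj)).2⟩
        · intro h j hj
          refine mem_filter.mpr ⟨mem_univ _, (h j ?_).2⟩
          rw [hBdef, Finset.mem_map]
          exact ⟨j, hj, rfl⟩
      rw [h7]
      nlinarith [mul_le_mul_of_nonneg_right h5 h6]
    refine (sum_le_sum e2).trans ?_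
    rw [← mul_sum]
    have h8 := sum_small (α := P) K (om y z) (A * E) (om_nonneg y z)
      (by rw [Fintype.card_coe]; exact hPA)
    calc 2 * XX x * ∑ U ∈ (univ : Finset (Finset P)).filter (fun U => U.card ≤ K), om y z ^ U.card
        ≤ 2 * XX x * ((K + 1) * (1 + A * E) ^ K) := mul_le_mul_of_nonneg_left h8 (by positivity)
      _ = 2 * ((K : ℝ) + 1) * (1 + A * E) ^ K * XX x := by ring
  calc ∑ n ∈ NN x b, WW q E z y P n ^ 4
      ≤ ∑ n ∈ NN x b, ((1 + G) ^ (2 * q)) ^ 4 * ((16 : ℝ) ^ (2 * q)) ^ 2 * 16 ^ (2 * (2 * q)) *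
        (((Y n).powerset.filter (fun B => B.card ≤ K)).card : ℝ) := sum_le_sum hpt
    _ = ((1 + G) ^ (2 * q)) ^ 4 * ((16 : ℝ) ^ (2 * q)) ^ 2 * 16 ^ (2 * (2 * q)) *
        ∑ n ∈ NN x b, (((Y n).powerset.filter (fun B => B.card ≤ K)).card : ℝ) := by
        rw [mul_sum]
    _ ≤ ((1 + G) ^ (2 * q)) ^ 4 * ((16 : ℝ) ^ (2 * q)) ^ 2 * 16 ^ (2 * (2 * q)) *
        (2 * ((K : ℝ) + 1) * (1 + A * E) ^ K * XX x) :=
        mul_le_mul_of_nonneg_left hcount (by positivity)
    _ = _ := by ring

end Pool.Agent.Helper50.PP
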